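import Mathlib

set_option autoImplicit false
set_option maxRecDepth 100000

/-!
# An odd integer beyond 1155 with small perfect deficiency

For a positive integer `n` with divisors `1 = d_1 < ... < d_k = n` put `r_0 = n`,
`r_i = r_{i-1} - d_i` if `r_{i-1} ≥ d_i` and `r_i = r_{i-1}` otherwise, and `pd n = r_k`.
The terms of the sequence `a 0 < a 1 < a 2 < ...` are the positive integers `n` with
`pd n ≤ 10`. It was asked whether `1155 = a 58` is the largest odd term. It is not:
`815634435 = 3 * 5 * 7 * 11 * 547 * 1291` is odd and has `pd 815634435 = 6`.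
-/

namespace Pool.Agent.Results.MP_7acd66_nt.OddTermBeyond1155

/-- The divisors of `n` in increasing order. -/
def divList (n : ℕ) : List ℕ := (Nat.divisors n).sort (· ≤ ·)

/-- One step: subtract `d` from the remainder `r` if `d ≤ r`, else leave `r`. -/
def step (r d : ℕ) : ℕ := if d ≤ r then r - d else r

/-- The perfect deficiency `pd n = r_k`: start with `n` and run `step` through the divisors of `n`
in increasing order. -/
def pd (n : ℕ) : ℕ := (divList n).foldl step n

/-- The terms of the sequence: positive integers with perfect deficiency at most 10. -/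
def IsTerm (n : ℕ) : Prop := 0 < n ∧ pd n ≤ 10

/-- The sequence `a 0 < a 1 < a 2 < ⋯` of all terms. -/
noncomputable def a (m : ℕ) : ℕ := Nat.nth IsTerm m

/-- The explicit list of the divisors of `815634435`. -/
def L : List ℕ :=
  [1, 3, 5, 7, 11, 15, 21, 33, 35, 55, 77, 105, 165, 231, 385, 547, 1155, 1291, 1641, 2735,
   3829, 3873, 6017, 6455, 8205, 9037, 11487, 14201, 18051, 19145, 19365, 27111, 30085, 42119,
   42603, 45185, 57435, 71005, 90255, 99407, 126357, 135555, 210595, 213015, 298221, 497035,
   631785, 706177, 1491105, 2118531, 3530885, 4943239, 7767947, 10592655, 14829717, 23303841,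
   24716195, 38839735, 54375629, 74148585, 116519205, 163126887, 271878145, 815634435]

theorem divList_eq_of {n : ℕ} {l : List ℕ} (h : l.toFinset = Nat.divisors n)
    (hs : l.Pairwise (· < ·)) : divList n = l := by
  unfold divList
  rw [← h]
  refine (List.toFinset_sort (· ≤ ·) ?_).mpr ?_
  · exact hs.imp (fun h => ne_of_lt h)
  · exact hs.imp (fun h => le_of_lt h)

theorem L_lt : L.Pairwise (· < ·) := by decide +kernel

theorem divisors_N : L.toFinset = Nat.divisors 815634435 := by
  apply Finset.eq_of_subset_of_card_le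
  · intro x hx
    rw [List.mem_toFinset] at hx
    rw [Nat.mem_divisors]
    refine ⟨?_, by norm_num⟩
    have h : ∀ y ∈ L, 815634435 % y = 0 := by decide +kernel
    exact Nat.dvd_of_mod_eq_zero (h x hx)
  · have hc : ∀ p : ℕ, p.Prime → (Nat.divisors p).card = 2 := by
      intro p hp
      rw [Nat.Prime.divisors hp, Finset.card_pair hp.one_lt.ne]
    have e : (815634435 : ℕ) = 3 * (5 * (7 * (11 * (547 * 1291)))) := by norm_num
    have h1 : (Nat.divisors 815634435).card = 64 := by
      rw [e, Nat.Coprime.card_divisors_mul (by norm_num),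
        Nat.Coprime.card_divisors_mul (by norm_num), Nat.Coprime.card_divisors_mul (by norm_num),
        Nat.Coprime.card_divisors_mul (by norm_num), Nat.Coprime.card_divisors_mul (by norm_num),
        hc 3 (by norm_num), hc 5 (by norm_num), hc 7 (by norm_num),
        hc 11 (by norm_num), hc 547 (by norm_num), hc 1291 (by norm_num)]
    have h2 : L.toFinset.card = 64 := by
      rw [List.toFinset_card_of_nodup (L_lt.imp (fun h => ne_of_lt h))]
      rfl
    rw [h1, h2]

theorem pd_N : pd 815634435 = 6 := by
  unfold pd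
  rw [divList_eq_of divisors_N L_lt]
  decide +kernel

/-! ### The 59 terms up to 1155 -/

/-- The same procedure as `pd`, as a loop over the numbers `d, d + 1, ..., d + k - 1`. -/
def loop (n : ℕ) : ℕ → ℕ → ℕ → ℕ
  | 0, _, r => r
  | k + 1, d, r => loop n k (d + 1) (cond (Nat.beq (n % d) 0 && Nat.ble d r) (r - d) r)

/-- The number of terms in `{1, ..., n}`. -/
def cnt : ℕ → ℕ
  | 0 => 0
  | k + 1 => cond (Nat.ble (loop (k + 1) (k + 1) 1 (k + 1)) 10) (cnt k + 1) (cnt k)

theorem loop_eq (n : ℕ) : ∀ k d r : ℕ,
    ((List.range' d k).filter (fun d => Nat.beq (n % d) 0)).foldl step r = loop n k d r := by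
  intro k
  induction k with
  | zero => intro d r; rfl
  | succ k ih =>
    intro d r
    rw [List.range'_succ, List.filter_cons, loop, ← ih]
    by_cases h : Nat.beq (n % d) 0 = true
    · rw [if_pos h, List.foldl_cons, h, Bool.true_and]
      congr 1
      unfold step
      by_cases h' : d ≤ r
      · rw [if_pos h', Nat.ble_eq_true_of_le h', cond_true]
      · have h2 : Nat.ble d r = false := by
          rw [← Bool.not_eq_true]
          exact fun hh => h' (Nat.le_of_ble_eq_true hh)
        rw [if_neg h', h2, cond_false]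
    · rw [if_neg h]
      have h2 : Nat.beq (n % d) 0 = false := by
        rw [← Bool.not_eq_true]; exact h
      rw [h2, Bool.false_and, cond_false]

theorem divList_eq_filter (n : ℕ) (hn : 0 < n) :
    divList n = (List.range' 1 n).filter (fun d => Nat.beq (n % d) 0) := by
  apply divList_eq_of
  · ext d
    simp only [List.mem_toFinset, List.mem_filter, List.mem_range'_1, Nat.mem_divisors]
    constructor
    · rintro ⟨_, h⟩
      exact ⟨Nat.dvd_of_mod_eq_zero (Nat.eq_of_beq_eq_true h), hn.ne'⟩
    · rintro ⟨h, _⟩
      have h1 := Nat.le_of_dvd hn h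
      have h2 := Nat.pos_of_dvd_of_pos h hn
      refine ⟨⟨h2, by omega⟩, ?_⟩
      rw [Nat.mod_eq_zero_of_dvd h]
      rfl
  · exact (List.pairwise_lt_range' (s := 1) (n := n)).filter _

theorem pd_eq_loop (n : ℕ) (hn : 0 < n) : pd n = loop n n 1 n := by
  unfold pd
  rw [divList_eq_filter n hn, loop_eq]

theorem count_eq [DecidablePred IsTerm] (k : ℕ) : Nat.count IsTerm (k + 1) = cnt k := by
  induction k with
  | zero =>
    have h : ¬ IsTerm 0 := fun h => absurd h.1 (lt_irrefl 0)
    rw [Nat.count_succ, Nat.count_zero, if_neg h]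
    rfl
  | succ k ih =>
    rw [Nat.count_succ, ih, cnt]
    have e := pd_eq_loop (k + 1) (Nat.succ_pos k)
    by_cases h : IsTerm (k + 1)
    · rw [if_pos h]
      have h2 := h.2
      rw [e] at h2
      rw [Nat.ble_eq_true_of_le h2, cond_true]
    · rw [if_neg h]
      have h2 : Nat.ble (loop (k + 1) (k + 1) 1 (k + 1)) 10 = false := by
        rw [← Bool.not_eq_true]
        intro hh
        apply h
        refine ⟨Nat.succ_pos k, ?_⟩
        rw [e]
        exact Nat.le_of_ble_eq_true hh
      rw [h2, cond_false]; rfl

theorem cnt_1154 : cnt 1154 = 58 := by decide +kernel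

theorem term_1155 : IsTerm 1155 := by
  refine ⟨by norm_num, ?_⟩
  rw [pd_eq_loop 1155 (by norm_num)]
  decide +kernel

theorem term_N : IsTerm 815634435 := ⟨by norm_num, by rw [pd_N]; norm_num⟩

theorem count_1155 [DecidablePred IsTerm] : Nat.count IsTerm 1155 = 58 :=
  (count_eq 1154).trans cnt_1154

theorem a_58 : a 58 = 1155 := by
  classical
  have h : Nat.count IsTerm 1155 = 58 := count_1155
  unfold a
  rw [← h]
  exact Nat.nth_count term_1155

/-- `815634435` is an odd integer larger than `1155` with perfect deficiency `6 ≤ 10`; in terms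
of the sequence, `a 58 = 1155` but some later term is odd. -/
theorem result :
    (Odd 815634435 ∧ 1155 < 815634435 ∧ pd 815634435 = 6) ∧
    (∃ n : ℕ, Odd n ∧ 1155 < n ∧ pd n ≤ 10) ∧
    a 58 = 1155 ∧ ∃ m : ℕ, 58 < m ∧ Odd (a m) := by
  have ho : Odd 815634435 := by decide
  refine ⟨⟨ho, by norm_num, pd_N⟩, ⟨815634435, ho, by norm_num, by rw [pd_N]; norm_num⟩, a_58, ?_⟩
  classical
  refine ⟨Nat.count IsTerm 815634435, ?_, ?_⟩
  · have h1 : Nat.count IsTerm 1155 < Nat.count IsTerm 815634435 :=
      Nat.count_strict_mono term_1155 (by norm_num)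
    have h2 : Nat.count IsTerm 1155 = 58 := count_1155
    omega
  · unfold a
    rw [Nat.nth_count term_N]
    exact ho

end Pool.Agent.Results.MP_7acd66_nt.OddTermBeyond1155
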